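import Pool.Agent.Helper60.RT.Defs

/-!
# Project RT, block E1n: the numerical inequalities
-/

open Real

set_option autoImplicit false

namespace Pool.Agent.Helper60.RT

open Pool.Agent.Helper60.LT (BB)

private noncomputable def F77 (X N : ℝ) : ℝ := N ^ 12 + N ^ 15 * X ^ (-(1 / 3) : ℝ)

private theorem F77_one {X N : ℝ} (hX : 1 ≤ X) (hN : 1 ≤ N) : 1 ≤ F77 X N := by
  unfold F77
  have h1 : 1 ≤ N ^ 12 := one_le_pow₀ hN
  have h2 : 0 ≤ N ^ 15 * X ^ (-(1 / 3) : ℝ) := by positivity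
  linarith only [h1, h2]

private theorem mono77 {X N : ℝ} (hX : 1 ≤ X) (hN : 1 ≤ N) (k : ℕ) {a b : ℝ}
    (h : a * log N + b * log X ≤ k * (12 * log N) ∨ a * log N + b * log X ≤ k * (15 * log N - 1 / 3 * log X)) :
    N ^ a * X ^ b ≤ F77 X N ^ k := by
  have hN0 : 0 < N := by linarith
  have hX0 : 0 < X := by linarith
  have e0 : N ^ a * X ^ b = exp (a * log N + b * log X) := by
    rw [rpow_def_of_pos hN0, rpow_def_of_pos hX0, ← exp_add]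
    congr 1
    ring
  have eN : ∀ n : ℕ, exp (n * log N) = N ^ n := by
    intro n
    rw [exp_nat_mul, exp_log hN0]
  have p2 : 0 ≤ N ^ 15 * X ^ (-(1 / 3) : ℝ) := by positivity
  have p1 : 0 ≤ N ^ 12 := by positivity
  rw [e0]
  rcases h with h | h
  · calc exp (a * log N + b * log X) ≤ exp (k * (12 * log N)) := exp_le_exp.2 h
      _ = (N ^ 12) ^ k := by
        rw [exp_nat_mul]
        congr 1
        exact_mod_cast eN 12
      _ ≤ F77 X N ^ k := by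
        apply pow_le_pow_left₀ p1
        unfold F77
        linarith only [p2]
  · calc exp (a * log N + b * log X) ≤ exp (k * (15 * log N - 1 / 3 * log X)) := exp_le_exp.2 h
      _ = (N ^ 15 * X ^ (-(1 / 3) : ℝ)) ^ k := by
        rw [exp_nat_mul]
        congr 1
        rw [sub_eq_add_neg, exp_add]
        congr 1
        · exact_mod_cast eN 15
        · rw [rpow_def_of_pos hX0]
          congr 1
          ring
      _ ≤ F77 X N ^ k := by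
        apply pow_le_pow_left₀ p2
        unfold F77
        linarith only [p1]

private theorem min_pow77 {a b : ℝ} (ha : 0 ≤ a) (hb : 0 ≤ b) : min a b ^ 7 ≤ a ^ 6 * b := by
  have h0 : 0 ≤ min a b := le_min ha hb
  calc min a b ^ 7 = min a b ^ 6 * min a b := by ring
    _ ≤ a ^ 6 * b := by
      gcongr
      · exact min_le_left _ _
      · exact min_le_right _ _

private theorem sum_pow77 {a b c : ℝ} (ha : 0 ≤ a) (hb : 0 ≤ b) (hc : 0 ≤ c) :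
    (a + b + c) ^ 6 ≤ 729 * (a ^ 6 + b ^ 6 + c ^ 6) := by
  have h1 : a + b + c ≤ 3 * max a (max b c) := by
    have h1 := le_max_left a (max b c)
    have h2 := (le_max_left b c).trans (le_max_right a (max b c))
    have h3 := (le_max_right b c).trans (le_max_right a (max b c))
    linarith
  have h2 : max a (max b c) ^ 6 ≤ a ^ 6 + b ^ 6 + c ^ 6 := by
    have ha6 : 0 ≤ a ^ 6 := by positivity
    have hb6 : 0 ≤ b ^ 6 := by positivity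
    have hc6 : 0 ≤ c ^ 6 := by positivity
    rcases max_choice a (max b c) with h | h
    · rw [h]; linarith
    · rw [h]
      rcases max_choice b c with h' | h'
      · rw [h']; linarith
      · rw [h']; linarith
  calc (a + b + c) ^ 6 ≤ (3 * max a (max b c)) ^ 6 := pow_le_pow_left₀ (by positivity) h1 6
    _ = 729 * max a (max b c) ^ 6 := by ring
    _ ≤ _ := by gcongr

private theorem rw77 {X N : ℝ} (hX : 0 < X) (hN : 0 < N) (n : ℕ) (a c : ℝ) : N ^ n * (N ^ a * X ^ c) = N ^ (n + a) * X ^ c := by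
  rw [← mul_assoc, rpow_add hN, rpow_natCast]

private theorem rwX77 {X N : ℝ} (hX : 0 < X) (a c : ℝ) : (N ^ a * X ^ c) / X = N ^ a * X ^ (c - 1) := by
  rw [rpow_sub_one hX.ne', mul_div_assoc]

private theorem rwp77 {X N : ℝ} (hX : 0 < X) (hN : 0 < N) (n : ℕ) (a c : ℝ) : (N ^ a * X ^ c) ^ n = N ^ (a * n) * X ^ (c * n) := by
  rw [mul_pow, ← rpow_natCast, ← rpow_natCast, ← rpow_mul hN.le, ← rpow_mul hX.le]

private theorem rwm77 {X N : ℝ} (hX : 0 < X) (hN : 0 < N) (a c a' c' : ℝ) : (N ^ a * X ^ c) * (N ^ a' * X ^ c') = N ^ (a + a') * X ^ (c + c') := by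
  rw [rpow_add hN, rpow_add hX]
  ring

/-- E1n: the numerical inequalities; `K = X N`, `w` is about `K ^ (-1/4)` -/
theorem num_bds {b : ℝ} (hb : 1 ≤ b) : ∃ C : ℝ, 1 ≤ C ∧ ∀ (X N w Q : ℝ), 1 ≤ X → 1 ≤ N → N ≤ X ^ (4 / 9 + 1 / 1000 : ℝ) → 0 < Q → 1 ≤ b * (w ^ 4 * (X * N)) → w ^ 4 * (X * N) ≤ b →
    0 < w → w ≤ b →
    X * BB N (X * N) ≤ C * FR X N ∧
    X * ((N ^ 2 * w + N) ^ 7 * (N ^ 2 * w + N ^ 2) ^ 2 * (1 + N ^ 3 / X)) ≤ C * FR X N ∧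
    X * (w ^ 6 * N ^ 18 * (1 + N ^ 3 / X)) ≤ C * FR X N ∧
    X * min (w * Q ^ 2 * BB N (X * N)) (N ^ 18 * (1 + N ^ 3 / X) / (Q ^ 12 * w ^ 3)) ≤ C * FR X N ∧
    (X ^ (1 / 10 : ℝ) ≤ N → (X * N) ^ (3 / 2 : ℝ) ≤ C * FR X N) ∧ 1 ≤ C * FR X N := by
  have hb0 : 0 < b := by linarith
  refine ⟨64 * (1 + b) ^ 2 * b ^ 7 * 4 + 6 * b ^ 3 * 729 + 3, ?_, ?_⟩
  · have : 0 ≤ 64 * (1 + b) ^ 2 * b ^ 7 * 4 + 6 * b ^ 3 * 729 := by positivity
    linarith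
  intro X N w Q hX hN hNX hQ hw1 hw2 hw hwb
  have hN0 : 0 < N := by linarith
  have hX0 : 0 < X := by linarith
  have lX : 0 ≤ log X := log_nonneg hX
  have lN : 0 ≤ log N := log_nonneg hN
  have lNX : log N ≤ (4 / 9 + 1 / 1000) * log X := by
    have := log_le_log hN0 hNX
    rwa [log_rpow hX0] at this
  have hF1 := F77_one hX hN
  have hF0 : 0 ≤ F77 X N := by linarith
  have hFR : FR X N = X * F77 X N := rfl
  set F := F77 X N with hFdef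
  -- `w ≤ b K ^ (-1/4)`
  have hK0 : 0 < X * N := by positivity
  set L : ℝ := N ^ (-(1 / 4) : ℝ) * X ^ (-(1 / 4) : ℝ) with hL
  have hL0 : 0 < L := by positivity
  have hL4 : L ^ 4 * (X * N) = 1 := by
    have h1 : (N ^ (-(1 / 4) : ℝ)) ^ 4 = N⁻¹ := by
      rw [← rpow_natCast, ← rpow_mul hN0.le]
      norm_num
      rw [rpow_neg_one]
    have h2 : (X ^ (-(1 / 4) : ℝ)) ^ 4 = X⁻¹ := by
      rw [← rpow_natCast, ← rpow_mul hX0.le]
      norm_num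
      rw [rpow_neg_one]
    rw [hL, mul_pow, h1, h2]
    field_simp
  have hwL : w ≤ b * L := by
    by_contra hc
    push Not at hc
    have h1 : (b * L) ^ 4 < w ^ 4 := pow_lt_pow_left₀ hc (by positivity) (by norm_num)
    have h2 : b ^ 4 < w ^ 4 * (X * N) := by
      calc b ^ 4 = (b * L) ^ 4 * (X * N) := by rw [mul_pow, mul_assoc, hL4, mul_one]
        _ < w ^ 4 * (X * N) := by gcongr
    have h3 : b ≤ b ^ 4 := le_self_pow₀ hb (by norm_num)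
    linarith only [hw2, h2, h3]
  -- the monomials
  have mN : ∀ n : ℕ, N ^ n = N ^ (n : ℝ) := fun n => (rpow_natCast N n).symm
  have key : ∀ a c : ℝ, (a * log N + c * log X ≤ 12 * log N ∨ a * log N + c * log X ≤ 15 * log N - 1 / 3 * log X) →
      N ^ a * X ^ c ≤ F := by
    intro a c h
    have := mono77 hX hN 1 (a := a) (b := c) (by simpa using h)
    simpa using this
  have rwn : ∀ n : ℕ, N ^ n = N ^ (n : ℝ) * X ^ (0 : ℝ) := fun n => by rw [rpow_zero, mul_one, rpow_natCast]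
  have hbb : BB N (X * N) = N ^ (12 : ℝ) * X ^ (0 : ℝ) + N ^ (33 / 2 : ℝ) * X ^ (-(3 / 2) : ℝ) + N ^ (39 / 2 : ℝ) * X ^ (-(5 / 2) : ℝ) := by
    unfold BB
    have h1 : (X * N) ^ (-(3 / 2) : ℝ) = N ^ (-(3 / 2) : ℝ) * X ^ (-(3 / 2) : ℝ) := by
      rw [mul_rpow hX0.le hN0.le, mul_comm]
    have h2 : (X * N) ^ (-(5 / 2) : ℝ) = N ^ (-(5 / 2) : ℝ) * X ^ (-(5 / 2) : ℝ) := by
      rw [mul_rpow hX0.le hN0.le, mul_comm]
    rw [h1, h2, rw77 hX0 hN0, rw77 hX0 hN0, rwn 12]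
    norm_num
  have hM1 : 0 ≤ N ^ (12 : ℝ) * X ^ (0 : ℝ) := by positivity
  have hM2 : 0 ≤ N ^ (33 / 2 : ℝ) * X ^ (-(3 / 2) : ℝ) := by positivity
  have hM3 : 0 ≤ N ^ (39 / 2 : ℝ) * X ^ (-(5 / 2) : ℝ) := by positivity
  have hBB0 : 0 ≤ BB N (X * N) := by rw [hbb]; positivity
  have b1 : ∀ n : ℕ, 1 ≤ b ^ n := fun n => one_le_pow₀ hb
  have hC1 : 1 ≤ (1 + b) ^ 2 := one_le_pow₀ (by linarith only [hb])
  set C : ℝ := 64 * (1 + b) ^ 2 * b ^ 7 * 4 + 6 * b ^ 3 * 729 + 3 with hC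
  have pA : 0 ≤ 64 * (1 + b) ^ 2 * b ^ 7 * 4 := by positivity
  have pB : 0 ≤ 6 * b ^ 3 * 729 := by positivity
  have hC0 : 1 ≤ C := by linarith only [pA, pB]
  have fin : ∀ Y D : ℝ, Y ≤ D * F → D ≤ C → X * Y ≤ C * FR X N := by
    intro Y D h1 h2
    rw [hFR]
    calc X * Y ≤ X * (D * F) := by gcongr
      _ ≤ X * (C * F) := by gcongr
      _ = C * (X * F) := by ring
  have hd : 1 + N ^ 3 / X = 1 + N ^ (3 : ℝ) * X ^ (-1 : ℝ) := by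
    rw [rpow_neg_one]
    congr 1
    rw [div_eq_mul_inv]
    congr 1
    exact_mod_cast (rpow_natCast N 3).symm
  have hd0 : 0 ≤ 1 + N ^ 3 / X := by positivity
  refine ⟨?_, ?_, ?_, ?_, ?_, ?_⟩
  · apply fin _ 3 _ (by linarith only [pA, pB])
    rw [hbb]
    have h1 := key 12 0 (Or.inl (by linarith only []))
    have h2 := key (33 / 2) (-(3 / 2)) (Or.inr (by linarith only [lX, lNX]))
    have h3 := key (39 / 2) (-(5 / 2)) (Or.inr (by linarith only [lX, lNX]))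
    linarith only [h1, h2, h3]
  · apply fin _ (64 * (1 + b) ^ 2 * b ^ 7 * 4) _ (by linarith only [pB])
    have g1 : (N ^ 2 * w + N) ^ 7 ≤ 64 * b ^ 7 * ((N ^ 2 * L) ^ 7 + N ^ 7) := by
      have h1 : (N ^ 2 * w + N) ^ 7 ≤ 2 ^ (7 - 1) * ((N ^ 2 * w) ^ 7 + N ^ 7) := add_pow_le (by positivity) hN0.le 7
      have h2 : (N ^ 2 * w) ^ 7 ≤ b ^ 7 * (N ^ 2 * L) ^ 7 := by
        rw [← mul_pow]
        apply pow_le_pow_left₀ (by positivity)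
        calc N ^ 2 * w ≤ N ^ 2 * (b * L) := by gcongr
          _ = b * (N ^ 2 * L) := by ring
      have h3 : N ^ 7 ≤ b ^ 7 * N ^ 7 := le_mul_of_one_le_left (by positivity) (b1 7)
      norm_num at h1
      linarith only [h2, h3, h1]
    have g2 : (N ^ 2 * w + N ^ 2) ^ 2 ≤ (1 + b) ^ 2 * N ^ 4 := by
      calc (N ^ 2 * w + N ^ 2) ^ 2 ≤ (N ^ 2 * b + N ^ 2) ^ 2 := by gcongr
        _ = (1 + b) ^ 2 * N ^ 4 := by ring
    have e1 : N ^ 4 * (N ^ 2 * L) ^ 7 = N ^ (65 / 4 : ℝ) * X ^ (-(7 / 4) : ℝ) := by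
      rw [hL, rw77 hX0 hN0, rwp77 hX0 hN0, rw77 hX0 hN0]
      norm_num
    have e2 : N ^ 4 * (N ^ 2 * L) ^ 7 * (N ^ (3 : ℝ) * X ^ (-1 : ℝ)) = N ^ (77 / 4 : ℝ) * X ^ (-(11 / 4) : ℝ) := by
      rw [e1, rwm77 hX0 hN0]
      norm_num
    have e3 : N ^ 4 * N ^ 7 = N ^ (11 : ℝ) * X ^ (0 : ℝ) := by
      rw [← pow_add, rwn 11]
      norm_num
    have e4 : N ^ 4 * N ^ 7 * (N ^ (3 : ℝ) * X ^ (-1 : ℝ)) = N ^ (14 : ℝ) * X ^ (-1 : ℝ) := by
      rw [e3, rwm77 hX0 hN0]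
      norm_num
    have k1 := key (65 / 4) (-(7 / 4)) (Or.inr (by linarith only [lX, lNX]))
    have k2 := key (77 / 4) (-(11 / 4)) (Or.inr (by linarith only [lX, lNX]))
    have k3 := key 11 0 (Or.inl (by linarith only [lN]))
    have k4 := key 14 (-1) (Or.inr (by linarith only [lX, lN]))
    rw [← e1] at k1
    rw [← e2] at k2
    rw [← e3] at k3
    rw [← e4] at k4
    calc (N ^ 2 * w + N) ^ 7 * (N ^ 2 * w + N ^ 2) ^ 2 * (1 + N ^ 3 / X)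
        ≤ (64 * b ^ 7 * ((N ^ 2 * L) ^ 7 + N ^ 7)) * ((1 + b) ^ 2 * N ^ 4) * (1 + N ^ 3 / X) := by (clear * - g1 g2 hN hw hb hX; gcongr)
      _ = 64 * (1 + b) ^ 2 * b ^ 7 * (N ^ 4 * (N ^ 2 * L) ^ 7 + N ^ 4 * (N ^ 2 * L) ^ 7 * (N ^ (3 : ℝ) * X ^ (-1 : ℝ)) +
          N ^ 4 * N ^ 7 + N ^ 4 * N ^ 7 * (N ^ (3 : ℝ) * X ^ (-1 : ℝ))) := by
        rw [hd]
        ring
      _ ≤ 64 * (1 + b) ^ 2 * b ^ 7 * (F + F + F + F) := by (clear * - k1 k2 k3 k4 hb; gcongr)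
      _ = 64 * (1 + b) ^ 2 * b ^ 7 * 4 * F := by ring
  · apply fin _ (2 * b ^ 6)
    · have e1 : N ^ 18 * L ^ 6 = N ^ (33 / 2 : ℝ) * X ^ (-(3 / 2) : ℝ) := by
        rw [hL, rwp77 hX0 hN0, rw77 hX0 hN0]
        norm_num
      have e2 : N ^ 18 * L ^ 6 * (N ^ (3 : ℝ) * X ^ (-1 : ℝ)) = N ^ (39 / 2 : ℝ) * X ^ (-(5 / 2) : ℝ) := by
        rw [e1, rwm77 hX0 hN0]
        norm_num
      have k1 := key (33 / 2) (-(3 / 2)) (Or.inr (by linarith only [lX, lNX]))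
      have k2 := key (39 / 2) (-(5 / 2)) (Or.inr (by linarith only [lX, lNX]))
      rw [← e1] at k1
      rw [← e2] at k2
      calc w ^ 6 * N ^ 18 * (1 + N ^ 3 / X) ≤ (b * L) ^ 6 * N ^ 18 * (1 + N ^ 3 / X) := by (clear * - hw hwL hN hX; gcongr)
        _ = b ^ 6 * (N ^ 18 * L ^ 6 + N ^ 18 * L ^ 6 * (N ^ (3 : ℝ) * X ^ (-1 : ℝ))) := by
          rw [hd]
          ring
        _ ≤ b ^ 6 * (F + F) := by gcongr
        _ = 2 * b ^ 6 * F := by ring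
    · have h1 : b ^ 6 ≤ b ^ 7 := pow_le_pow_right₀ hb (by norm_num)
      have h2 : b ^ 7 ≤ (1 + b) ^ 2 * b ^ 7 := le_mul_of_one_le_left (by positivity) hC1
      have h3 : 0 ≤ b ^ 6 := by positivity
      linarith only [pA, pB, h1, h2]
  · apply fin _ (6 * b ^ 3 * 729) _ (by linarith only [pA])
    have hm0 : 0 ≤ min (w * Q ^ 2 * BB N (X * N)) (N ^ 18 * (1 + N ^ 3 / X) / (Q ^ 12 * w ^ 3)) := by
      apply le_min <;> positivity
    have h1 := min_pow77 (a := w * Q ^ 2 * BB N (X * N)) (b := N ^ 18 * (1 + N ^ 3 / X) / (Q ^ 12 * w ^ 3)) (by positivity) (by positivity)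
    have h2 : (w * Q ^ 2 * BB N (X * N)) ^ 6 * (N ^ 18 * (1 + N ^ 3 / X) / (Q ^ 12 * w ^ 3)) =
        w ^ 3 * BB N (X * N) ^ 6 * N ^ 18 * (1 + N ^ 3 / X) := by
      field_simp
    rw [h2] at h1
    have h3 : BB N (X * N) ^ 6 ≤ 729 * ((N ^ (12 : ℝ) * X ^ (0 : ℝ)) ^ 6 + (N ^ (33 / 2 : ℝ) * X ^ (-(3 / 2) : ℝ)) ^ 6 +
        (N ^ (39 / 2 : ℝ) * X ^ (-(5 / 2) : ℝ)) ^ 6) := by
      rw [hbb]
      exact sum_pow77 hM1 hM2 hM3
    have key7 : ∀ a c : ℝ, (a * log N + c * log X ≤ 7 * (12 * log N) ∨ a * log N + c * log X ≤ 7 * (15 * log N - 1 / 3 * log X)) →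
        N ^ a * X ^ c ≤ F ^ 7 := by
      intro a c h
      exact mono77 hX hN 7 (a := a) (b := c) (by exact_mod_cast h)
    have e1 : N ^ 18 * L ^ 3 * (N ^ (12 : ℝ) * X ^ (0 : ℝ)) ^ 6 = N ^ (357 / 4 : ℝ) * X ^ (-(3 / 4) : ℝ) := by
      rw [hL, rwp77 hX0 hN0, rwp77 hX0 hN0, rw77 hX0 hN0, rwm77 hX0 hN0]
      norm_num
    have e2 : N ^ 18 * L ^ 3 * (N ^ (33 / 2 : ℝ) * X ^ (-(3 / 2) : ℝ)) ^ 6 = N ^ (465 / 4 : ℝ) * X ^ (-(39 / 4) : ℝ) := by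
      rw [hL, rwp77 hX0 hN0, rwp77 hX0 hN0, rw77 hX0 hN0, rwm77 hX0 hN0]
      norm_num
    have e3 : N ^ 18 * L ^ 3 * (N ^ (39 / 2 : ℝ) * X ^ (-(5 / 2) : ℝ)) ^ 6 = N ^ (537 / 4 : ℝ) * X ^ (-(63 / 4) : ℝ) := by
      rw [hL, rwp77 hX0 hN0, rwp77 hX0 hN0, rw77 hX0 hN0, rwm77 hX0 hN0]
      norm_num
    have e4 : N ^ 18 * L ^ 3 * (N ^ (12 : ℝ) * X ^ (0 : ℝ)) ^ 6 * (N ^ (3 : ℝ) * X ^ (-1 : ℝ)) = N ^ (369 / 4 : ℝ) * X ^ (-(7 / 4) : ℝ) := by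
      rw [e1, rwm77 hX0 hN0]
      norm_num
    have e5 : N ^ 18 * L ^ 3 * (N ^ (33 / 2 : ℝ) * X ^ (-(3 / 2) : ℝ)) ^ 6 * (N ^ (3 : ℝ) * X ^ (-1 : ℝ)) = N ^ (477 / 4 : ℝ) * X ^ (-(43 / 4) : ℝ) := by
      rw [e2, rwm77 hX0 hN0]
      norm_num
    have e6 : N ^ 18 * L ^ 3 * (N ^ (39 / 2 : ℝ) * X ^ (-(5 / 2) : ℝ)) ^ 6 * (N ^ (3 : ℝ) * X ^ (-1 : ℝ)) = N ^ (549 / 4 : ℝ) * X ^ (-(67 / 4) : ℝ) := by
      rw [e3, rwm77 hX0 hN0]
      norm_num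
    have k1 := key7 (357 / 4) (-(3 / 4)) (by
      rcases le_total (7 * log N) (log X) with h | h
      · left; linarith only [h]
      · right; linarith only [lN, h])
    have k2 := key7 (465 / 4) (-(39 / 4)) (Or.inr (by linarith only [lX, lNX]))
    have k3 := key7 (537 / 4) (-(63 / 4)) (Or.inr (by linarith only [lX, lNX]))
    have k4 := key7 (369 / 4) (-(7 / 4)) (by
      rcases le_total (7 * log N) (log X) with h | h
      · left; linarith only [lNX, h]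
      · right; linarith only [lN, h])
    have k5 := key7 (477 / 4) (-(43 / 4)) (Or.inr (by linarith only [lX, lNX]))
    have k6 := key7 (549 / 4) (-(67 / 4)) (Or.inr (by linarith only [lX, lNX]))
    rw [← e1] at k1
    rw [← e2] at k2
    rw [← e3] at k3
    rw [← e4] at k4
    rw [← e5] at k5
    rw [← e6] at k6
    have h4 : min (w * Q ^ 2 * BB N (X * N)) (N ^ 18 * (1 + N ^ 3 / X) / (Q ^ 12 * w ^ 3)) ^ 7 ≤ 6 * b ^ 3 * 729 * F ^ 7 := by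
      refine h1.trans ?_
      calc w ^ 3 * BB N (X * N) ^ 6 * N ^ 18 * (1 + N ^ 3 / X)
          ≤ (b * L) ^ 3 * (729 * ((N ^ (12 : ℝ) * X ^ (0 : ℝ)) ^ 6 + (N ^ (33 / 2 : ℝ) * X ^ (-(3 / 2) : ℝ)) ^ 6 +
            (N ^ (39 / 2 : ℝ) * X ^ (-(5 / 2) : ℝ)) ^ 6)) * N ^ 18 * (1 + N ^ 3 / X) := by (clear * - hw hwL h3 hb hN hX; gcongr)
        _ = b ^ 3 * 729 * (N ^ 18 * L ^ 3 * (N ^ (12 : ℝ) * X ^ (0 : ℝ)) ^ 6 + N ^ 18 * L ^ 3 * (N ^ (33 / 2 : ℝ) * X ^ (-(3 / 2) : ℝ)) ^ 6 +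
            N ^ 18 * L ^ 3 * (N ^ (39 / 2 : ℝ) * X ^ (-(5 / 2) : ℝ)) ^ 6 +
            N ^ 18 * L ^ 3 * (N ^ (12 : ℝ) * X ^ (0 : ℝ)) ^ 6 * (N ^ (3 : ℝ) * X ^ (-1 : ℝ)) +
            N ^ 18 * L ^ 3 * (N ^ (33 / 2 : ℝ) * X ^ (-(3 / 2) : ℝ)) ^ 6 * (N ^ (3 : ℝ) * X ^ (-1 : ℝ)) +
            N ^ 18 * L ^ 3 * (N ^ (39 / 2 : ℝ) * X ^ (-(5 / 2) : ℝ)) ^ 6 * (N ^ (3 : ℝ) * X ^ (-1 : ℝ))) := by
          rw [hd]
          ring
        _ ≤ b ^ 3 * 729 * (F ^ 7 + F ^ 7 + F ^ 7 + F ^ 7 + F ^ 7 + F ^ 7) := by (clear * - k1 k2 k3 k4 k5 k6 hb; gcongr)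
        _ = 6 * b ^ 3 * 729 * F ^ 7 := by ring
    have hD : 1 ≤ 6 * b ^ 3 * 729 := by
      have := b1 3
      linarith only [this]
    have h5 : 6 * b ^ 3 * 729 * F ^ 7 ≤ (6 * b ^ 3 * 729 * F) ^ 7 := by
      rw [mul_pow]
      have : 6 * b ^ 3 * 729 ≤ (6 * b ^ 3 * 729) ^ 7 := le_self_pow₀ hD (by norm_num)
      gcongr
    exact (pow_le_pow_iff_left₀ hm0 (by positivity) (by norm_num)).1 (h4.trans h5)
  · intro hlo
    have l1 : 1 / 10 * log X ≤ log N := by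
      have := log_le_log (by positivity) hlo
      rwa [log_rpow hX0] at this
    have h1 := key (3 / 2) (1 / 2) (Or.inl (by linarith only [lN, l1]))
    have e1 : (X * N) ^ (3 / 2 : ℝ) = X * (N ^ (3 / 2 : ℝ) * X ^ (1 / 2 : ℝ)) := by
      rw [mul_rpow hX0.le hN0.le]
      have : X ^ (3 / 2 : ℝ) = X * X ^ (1 / 2 : ℝ) := by
        nth_rw 2 [← rpow_one X]
        rw [← rpow_add hX0]
        norm_num
      rw [this]
      ring
    rw [e1]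
    exact fin _ 1 (by linarith only [h1]) hC0
  · rw [hFR]
    have h1 : 1 ≤ X * F := one_le_mul_of_one_le_of_one_le hX hF1
    exact one_le_mul_of_one_le_of_one_le hC0 h1

end Pool.Agent.Helper60.RT
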